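import Pool.Agent.Y645.UP.Stm

/-!
# Project UP (helper645), job UP-ENC2: a circuit for an algebraic tuple
-/

set_option autoImplicit false

namespace Pool.Agent.Y287.UP

open MvPolynomial
open Pool.Agent.Y645.UP (Sat vals TT)

/-- a separable polynomial relation with integral coefficients -/
theorem sep_rel {L J : Type} [Field L] [CharZero L] (x : J → L) (B : Finset J) (j : J)
    (h : IsAlgebraic (Algebra.adjoin ℤ (x '' (B : Set J))) (x j)) :
    ∃ F : MvPolynomial (Option B) ℤ,
      aeval (fun o : Option B => o.elim (x j) (fun b => x b)) F = 0 ∧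
      aeval (fun o : Option B => o.elim (x j) (fun b => x b)) (pderiv none F) ≠ 0 := by
  classical
  set A := Algebra.adjoin ℤ (x '' (B : Set J)) with hA
  set v : Option B → L := fun o => o.elim (x j) (fun b => x b) with hv
  -- a polynomial of minimal degree
  obtain ⟨P, hP0, hPj, hmin⟩ : ∃ P : Polynomial A, P ≠ 0 ∧ Polynomial.aeval (x j) P = 0 ∧
      ∀ Q : Polynomial A, Q ≠ 0 → Polynomial.aeval (x j) Q = 0 →
        P.natDegree ≤ Q.natDegree := by
    have hex : ∃ n : ℕ, ∃ P : Polynomial A, P ≠ 0 ∧ Polynomial.aeval (x j) P = 0 ∧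
        P.natDegree = n := by
      obtain ⟨P, h1, h2⟩ := h
      exact ⟨_, P, h1, h2, rfl⟩
    obtain ⟨P, h1, h2, h3⟩ := Nat.find_spec hex
    refine ⟨P, h1, h2, fun Q hQ hQj => ?_⟩
    rw [h3]
    exact Nat.find_min' hex ⟨Q, hQ, hQj, rfl⟩
  have hdeg : P.natDegree ≠ 0 := by
    intro h0
    rw [Polynomial.eq_C_of_natDegree_eq_zero h0, Polynomial.aeval_C] at hPj
    have h1 : P.coeff 0 = 0 := by
      apply FaithfulSMul.algebraMap_injective A L
      rw [hPj, map_zero]
    apply hP0
    rw [Polynomial.eq_C_of_natDegree_eq_zero h0, h1, Polynomial.C_0]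
  have hder : Polynomial.aeval (x j) (Polynomial.derivative P) ≠ 0 := by
    intro h0
    have h1 : Polynomial.derivative P ≠ 0 := by
      intro h2
      exact hdeg (Polynomial.derivative_eq_zero.1 h2)
    have h2 := hmin _ h1 h0
    have h3 := Polynomial.natDegree_derivative_lt hdeg
    omega
  -- lift of the coefficients
  set φ : MvPolynomial B ℤ →ₐ[ℤ] L := aeval (fun b : B => x b) with hφ
  have hrange : A = φ.range := by
    rw [hA, hφ, ← Algebra.adjoin_range_eq_range_aeval]
    congr 1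
    ext y
    constructor
    · rintro ⟨b, hb, rfl⟩
      exact ⟨⟨b, hb⟩, rfl⟩
    · rintro ⟨b, rfl⟩
      exact ⟨b, b.2, rfl⟩
  have hlift : ∀ n, ∃ q : MvPolynomial B ℤ, φ q = (P.coeff n : L) := by
    intro n
    have : (P.coeff n : L) ∈ φ.range := by
      rw [← hrange]
      exact (P.coeff n).2
    exact this
  choose q hq using hlift
  refine ⟨∑ n ∈ Finset.range (P.natDegree + 1), rename some (q n) * X none ^ n, ?_, ?_⟩
  · rw [map_sum]
    rw [Polynomial.aeval_eq_sum_range] at hPj
    rw [← hPj]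
    refine Finset.sum_congr rfl fun n _ => ?_
    rw [map_mul, map_pow, aeval_X, aeval_rename, Algebra.smul_def]
    congr 1
    exact hq n
  · have h1 : aeval v (pderiv none (∑ n ∈ Finset.range (P.natDegree + 1),
        rename some (q n) * X none ^ n)) =
          Polynomial.aeval (x j) (Polynomial.derivative P) := by
      rw [map_sum, map_sum, Polynomial.derivative_apply, Polynomial.sum_over_range _ (by simp),
        map_sum]
      refine Finset.sum_congr rfl fun n _ => ?_
      have h2 : pderiv none (rename (some : B → Option B) (q n)) = 0 := by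
        apply pderiv_eq_zero_of_notMem_vars
        intro h3
        have h4 := vars_rename (some : B → Option B) (q n) h3
        rw [Finset.mem_image] at h4
        obtain ⟨b, _, hb⟩ := h4
        exact absurd hb (Option.some_ne_none b)
      rw [Derivation.leibniz, Derivation.leibniz_pow, h2, pderiv_X_self, smul_zero, add_zero,
        smul_eq_mul, smul_eq_mul, mul_one, nsmul_eq_mul, map_mul, map_mul, map_natCast, map_pow,
        aeval_X, aeval_rename, map_mul, map_pow, Polynomial.aeval_C, Polynomial.aeval_X, map_mul,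
        map_natCast]
      have h5 : aeval (v ∘ some) (q n) = (P.coeff n : L) := hq n
      rw [h5, ← mul_assoc]
      rfl
    rw [h1]
    exact hder

/-- **UP-ENC2** -/
theorem t_ENC2 (h1 : Pool.Agent.Y645.UP.S_ENC1) (hINT : Pool.Agent.Y645.UL.S_INT) :
    Pool.Agent.Y645.UP.S_ENC2 := by
  intro k L J _ _ _ _ _ _ x t B hB
  classical
  have hch : CharZero L := charZero_of_injective_algebraMap (algebraMap k L).injective
  set R : Subalgebra k L := Algebra.adjoin k (Set.range x) with hR
  -- the circuit of one coordinate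
  have hone : ∀ j : J, ∃ σ₁ σ₂ : Set (L × L), σ₁.Finite ∧ σ₂.Finite ∧
      (∀ e ∈ vals σ₁ σ₂, TT R t e) ∧
      ∀ η : L → L, Sat σ₁ σ₂ η → (∀ b ∈ B, η (t + x b) = 0) → η t = 0 →
        η (t + x j) = 0 ∧ ∀ e ∈ vals σ₁ σ₂, η e = 0 := by
    intro j
    obtain ⟨F, hF0, hF1⟩ := sep_rel x B j (hINT k L _ _ (hB j))
    set v : Option B → L := fun o => o.elim (x j) (fun b => x b) with hv
    have hvR : ∀ o, v o ∈ R := by
      intro o
      cases o with
      | none => exact Algebra.subset_adjoin ⟨j, rfl⟩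
      | some b => exact Algebra.subset_adjoin ⟨b, rfl⟩
    obtain ⟨σ₁, σ₂, hf1, hf2, hT, hη⟩ := h1 k L (Option B) R t v hvR F
    refine ⟨σ₁, σ₂, hf1, hf2, hT, fun η hS hb ht => ?_⟩
    obtain ⟨h2, h3⟩ := hη η hS
    have hsome : ∀ b : B, η (t + v (some b)) = 0 := fun b => hb b b.2
    rw [hF0, add_zero, sub_self, Fintype.sum_option] at h2
    have h4 : ∑ b : B, aeval v (pderiv (some b) F) * (η (t + v (some b)) - η t) = 0 := by
      refine Finset.sum_eq_zero fun b _ => ?_
      rw [hsome b, ht, sub_zero, mul_zero]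
    rw [h4, add_zero, ht, sub_zero] at h2
    have h5 : η (t + v none) = 0 := (mul_eq_zero.1 h2.symm).resolve_left hF1
    refine ⟨h5, h3 (fun o => ?_) ht⟩
    cases o with
    | none => exact h5
    | some b => exact hsome b
  choose σ₁ σ₂ hf1 hf2 hT hη using hone
  refine ⟨⋃ j, σ₁ j, ⋃ j, σ₂ j, Set.finite_iUnion hf1, Set.finite_iUnion hf2, ?_, ?_⟩
  · intro e he
    rcases he with ⟨p, hp, h⟩ | ⟨p, hp, h⟩
    · obtain ⟨j, hj⟩ := Set.mem_iUnion.1 hp
      exact hT j e (Or.inl ⟨p, hj, h⟩)
    · obtain ⟨j, hj⟩ := Set.mem_iUnion.1 hp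
      exact hT j e (Or.inr ⟨p, hj, h⟩)
  · intro η hS hb ht
    have hSj : ∀ j, Sat (σ₁ j) (σ₂ j) η := fun j =>
      ⟨fun p hp => hS.1 p (Set.mem_iUnion.2 ⟨j, hp⟩), fun p hp => hS.2 p (Set.mem_iUnion.2 ⟨j, hp⟩)⟩
    refine ⟨fun j => (hη j η (hSj j) hb ht).1, ?_⟩
    intro e he
    rcases he with ⟨p, hp, h⟩ | ⟨p, hp, h⟩
    · obtain ⟨j, hj⟩ := Set.mem_iUnion.1 hp
      exact (hη j η (hSj j) hb ht).2 e (Or.inl ⟨p, hj, h⟩)
    · obtain ⟨j, hj⟩ := Set.mem_iUnion.1 hp
      exact (hη j η (hSj j) hb ht).2 e (Or.inr ⟨p, hj, h⟩)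

end Pool.Agent.Y287.UP
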